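import Pool.Agent.N929.AC.Ac
import Pool.Agent.Run7.h106.AC.Ang

/-!
# Analytic continuation for invariant functionals of exponential growth, relative to a free radius
(after N738/AC/ASM)
-/

set_option autoImplicit false
set_option linter.unusedVariables false

namespace Run7.h106.AH

open Finset Filter Topology Pool.Agent.N929.EG Pool.Agent.N929.AC
open Pool.Agent.N738.AC (sum_pp aa_nonneg avg_le consts)
open Run7.h106.AC (cs_abs)
open scoped Classical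

noncomputable section

variable {α σ : Type}

theorem ang2u (M c₀ : ℝ) (s : ℕ) (hM : 1 ≤ M) (hc₀ : 0 < c₀) (hs : 1 ≤ s) :
    ∃ k : ℝ, 0 < k ∧ ∃ c₁ : ℝ, 0 < c₁ ∧ ∀ μ : ℝ, 1 ≤ μ → μ ≤ M →
    ∀ c : ℝ, 0 < c → c ≤ c₁ → ∀ z ∈ Om c μ s, 0 < xx c μ s z ∧ (xx c μ s z < ‖z‖ →
      ‖z‖ ≤ xx c μ s z * Real.exp (c₀ * (k * (1 - cs s z))) ∧
      ‖1 + z ^ s‖ ≤ (1 + xx c μ s z ^ s) * Real.exp (-(k * (1 - cs s z))) ∧
      1 ≤ (1 + xx c μ s z ^ s) * Real.exp (-(k * (1 - cs s z)))) := by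
  have hM0 : 0 < M := by linarith
  have hs0 : (0 : ℝ) < s := by exact_mod_cast hs
  obtain ⟨k, hk⟩ : ∃ k : ℝ, k = ((2 * M) ^ s)⁻¹ / (2 * (1 + 2 ^ s) ^ 2) := ⟨_, rfl⟩
  have hk0 : 0 < k := by rw [hk]; positivity
  refine ⟨k, hk0, min (1 / 4) (min (c₀ * k / 4) (k / (4 * s))), by positivity, ?_⟩
  intro μ hμ hμM c hc hc1 z hz
  have hμ0 : 0 < μ := by linarith
  have hca : c ≤ 1 / 4 := hc1.trans (min_le_left _ _)
  have hcb : 4 * c ≤ c₀ * k := by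
    have := hc1.trans ((min_le_right _ _).trans (min_le_left _ _))
    linarith
  have hcc : 4 * s * c ≤ k := by
    have := hc1.trans ((min_le_right _ _).trans (min_le_right _ _))
    rw [le_div_iff₀ (by positivity)] at this
    linarith
  have habs := abs_le.1 (cs_abs s z)
  obtain ⟨u, hu⟩ : ∃ u, u = 1 - cs s z := ⟨_, rfl⟩
  have hu0 : 0 ≤ u := by rw [hu]; linarith [habs.2]
  have hu2 : u ≤ 2 := by rw [hu]; linarith [habs.1]
  have hcu : c * u ≤ 1 / 2 := by nlinarith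
  have hcu0 : 0 ≤ c * u := mul_nonneg hc.le hu0
  have hz' : μ * ‖z‖ < 1 + c * u := by
    rw [hu]
    exact hz
  rw [← hu]
  obtain ⟨x, hx⟩ : ∃ x, x = xx c μ s z := ⟨_, rfl⟩
  have hx' : x = (1 - c * u) / μ := by rw [hx, hu]; rfl
  rw [← hx]
  have hx1 : (2 * M)⁻¹ ≤ x := by
    have h1 : (2 * M)⁻¹ ≤ (2 * μ)⁻¹ := inv_anti₀ (by positivity) (by linarith)
    refine h1.trans ?_
    rw [hx', le_div_iff₀ hμ0]
    have : (2 * μ)⁻¹ * μ = 1 / 2 := by field_simp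
    rw [this]
    linarith
  have hx0 : 0 < x := lt_of_lt_of_le (by positivity) hx1
  refine ⟨hx0, fun hxz => ?_⟩
  have hz1 : ‖z‖ ≤ x * Real.exp (4 * (c * u)) := by
    have h1 : ‖z‖ ≤ (1 + c * u) / μ := by
      rw [le_div_iff₀ hμ0]
      linarith
    have h2 : 1 + c * u ≤ (1 - c * u) * Real.exp (4 * (c * u)) := by
      have h3 := Real.add_one_le_exp (4 * (c * u))
      have h4 : (1 - c * u) * (4 * (c * u) + 1) ≤ (1 - c * u) * Real.exp (4 * (c * u)) :=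
        mul_le_mul_of_nonneg_left h3 (by linarith)
      nlinarith
    calc ‖z‖ ≤ (1 + c * u) / μ := h1
      _ ≤ ((1 - c * u) * Real.exp (4 * (c * u))) / μ := by gcongr
      _ = x * Real.exp (4 * (c * u)) := by rw [hx']; ring
  have hlow : 1 ≤ (1 + x ^ s) * Real.exp (-(k * u)) := by
    obtain ⟨a, ha⟩ : ∃ a : ℝ, a = ((2 * M) ^ s)⁻¹ := ⟨_, rfl⟩
    have ha0 : 0 < a := by rw [ha]; positivity
    have ha1 : a ≤ 1 := by
      rw [ha]
      exact inv_le_one_of_one_le₀ (one_le_pow₀ (by linarith))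
    have hax : a ≤ x ^ s := by
      rw [ha, ← inv_pow]
      exact pow_le_pow_left₀ (by positivity) hx1 s
    have h2s : (1 : ℝ) ≤ 2 ^ s := one_le_pow₀ (by norm_num)
    have hk8 : 8 * k ≤ a := by
      rw [hk, ← ha]
      have h4 : (4 : ℝ) ≤ (1 + 2 ^ s) ^ 2 := by nlinarith
      rw [← mul_div_assoc, div_le_iff₀ (by positivity)]
      nlinarith
    have h5 := Real.add_one_le_exp (-(k * u))
    have h6 : 1 - 2 * k ≤ Real.exp (-(k * u)) := by nlinarith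
    have h7 : 0 ≤ 1 - 2 * k := by linarith
    calc (1 : ℝ) ≤ (1 + a) * (1 - 2 * k) := by nlinarith
      _ ≤ (1 + x ^ s) * Real.exp (-(k * u)) := by
          apply mul_le_mul (by linarith) h6 h7 (by positivity)
  refine ⟨hz1.trans ?_, ?_, hlow⟩
  · apply mul_le_mul_of_nonneg_left _ hx0.le
    apply Real.exp_le_exp.2
    nlinarith
  · have hz0 : 0 < ‖z‖ := hx0.trans hxz
    obtain ⟨y, hy⟩ : ∃ y, y = ‖z‖ ^ s := ⟨_, rfl⟩
    have hy0 : 0 < y := by rw [hy]; positivity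
    have hre : (z ^ s).re = y * (1 - u) := by
      rw [hu, hy]
      unfold cs
      field_simp
      ring
    have hsq : ‖1 + z ^ s‖ ^ 2 = (1 + y) ^ 2 - 2 * y * u := by
      have h1 : ‖z ^ s‖ ^ 2 = y ^ 2 := by rw [norm_pow, hy]
      rw [Complex.sq_norm, Complex.normSq_apply] at h1 ⊢
      rw [Complex.add_re, Complex.add_im, Complex.one_re, Complex.one_im]
      rw [hre] at h1 ⊢
      linear_combination h1
    have h2 : ‖1 + z ^ s‖ ≤ (1 + y) * Real.exp (-(y * u / (1 + y) ^ 2)) := by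
      rw [← pow_le_pow_iff_left₀ (norm_nonneg _) (by positivity) two_ne_zero, hsq, mul_pow,
        ← Real.exp_nat_mul]
      have h3 := Real.add_one_le_exp (((2 : ℕ) : ℝ) * (-(y * u / (1 + y) ^ 2)))
      have h4 : (1 + y) ^ 2 * ((((2 : ℕ) : ℝ) * (-(y * u / (1 + y) ^ 2))) + 1) =
          (1 + y) ^ 2 - 2 * y * u := by
        push_cast
        field_simp
        ring
      rw [← h4]
      exact mul_le_mul_of_nonneg_left h3 (by positivity)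
    have h3 : 1 + y ≤ (1 + x ^ s) * Real.exp (s * (4 * (c * u))) := by
      have h4 : y ≤ x ^ s * Real.exp (s * (4 * (c * u))) := by
        rw [hy, Real.exp_nat_mul, ← mul_pow]
        exact pow_le_pow_left₀ hz0.le hz1 s
      have h5 : 1 ≤ Real.exp (s * (4 * (c * u))) := Real.one_le_exp (by positivity)
      nlinarith
    have h4 : ((2 * M) ^ s)⁻¹ ≤ y := by
      rw [hy, ← inv_pow]
      exact pow_le_pow_left₀ (by positivity) (hx1.trans hxz.le) s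
    have h5 : y ≤ 2 ^ s := by
      rw [hy]
      apply pow_le_pow_left₀ hz0.le
      nlinarith
    have h6 : k + 4 * s * c ≤ y / (1 + y) ^ 2 := by
      have h7 : 2 * k ≤ y / (1 + y) ^ 2 := by
        have h8 : 2 * k = ((2 * M) ^ s)⁻¹ / (1 + 2 ^ s) ^ 2 := by
          rw [hk]
          field_simp
        rw [h8]
        gcongr
      linarith
    calc ‖1 + z ^ s‖ ≤ (1 + y) * Real.exp (-(y * u / (1 + y) ^ 2)) := h2
      _ ≤ ((1 + x ^ s) * Real.exp (s * (4 * (c * u)))) * Real.exp (-((k + 4 * s * c) * u)) := by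
          apply mul_le_mul h3 _ (Real.exp_nonneg _) (by positivity)
          apply Real.exp_le_exp.2
          have : (k + 4 * s * c) * u ≤ y / (1 + y) ^ 2 * u := mul_le_mul_of_nonneg_right h6 hu0
          rw [div_mul_eq_mul_div] at this
          linarith
      _ = (1 + x ^ s) * Real.exp (-(k * u)) := by
          rw [mul_assoc, ← Real.exp_add]
          congr 2
          ring

/-- the average over the families -/
theorem ex_PI (hbnd : S_BND) (hcnv : S_CNV) (Y : TS α σ) (μ c₀ θ C C₀ : ℝ) (p : ℕ)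
    (ρ : ℝ) (hρ : 0 ≤ ρ) (hc₀ : 0 < c₀) (hθ : 0 < θ) (hμ : 1 ≤ μ) (hC : 0 < C) (hC₀ : 0 ≤ C₀) (θ₂ : ℝ)
    (h20 : 0 ≤ θ₂) (h21 : θ₂ < 1) (F : α → ℝ)
    (hF : ∀ n, ∀ w ∈ Y.K n, 0 ≤ F w ∧ F w ≤ C₀ * ((n : ℝ) + 1) ^ p * ρ ^ n)
    (hinv : ∀ n, ∀ w ∈ Y.K n, ∀ q ∈ Y.S w, F (Y.ins w q) = F w) (N : ℕ)
    (ι : Type) [Fintype ι] [Nonempty ι] (Λ : ι → Finset σ) (hFam : ∀ i, Fam Y (Λ i))
    (hfew : ∀ m ≤ N, ∑ i, (((Y.K m).filter
      (fun w => ((Sl Y (Λ i) w).card : ℝ) < c₀ * m)).card : ℝ) ≤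
        C * (θ * μ) ^ m * Fintype.card ι) :
    ∃ P : ℂ → ℂ, Differentiable ℂ P ∧
      (∀ (z : ℂ) (x : ℝ), 0 ≤ x → Summable (fun n => aa Y F n * x ^ n) → ‖z‖ ≤ x →
        ‖P z‖ ≤ ∑' n, aa Y F n * x ^ n) ∧
      (∀ (z : ℂ) (x δ : ℝ), 0 ≤ x → Summable (fun n => aa Y F n * x ^ n) → 0 ≤ δ →
        ‖z‖ ≤ x * Real.exp (c₀ * δ) → ‖1 + z ^ Y.s‖ ≤ (1 + x ^ Y.s) * Real.exp (-δ) →
        θ * μ * (ρ * (‖z‖ * (1 + ‖z‖ ^ Y.s) ^ c₀)) ≤ θ₂ →
        ‖P z‖ ≤ (∑' n, aa Y F n * x ^ n) +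
          ∑' m : ℕ, C₀ * C * (((m : ℝ) + 1) ^ p * θ₂ ^ m)) ∧
      (∀ z : ℂ, Summable (fun n => aa Y F n * ‖z‖ ^ n) →
        ‖P z - ∑ n ∈ range (N + 1), (aa Y F n : ℂ) * z ^ n‖ ≤
          ∑' n, aa Y F (n + (N + 1)) * ‖z‖ ^ (n + (N + 1))) := by
  have hF0 : ∀ n, ∀ w ∈ Y.K n, 0 ≤ F w := fun n w hw => (hF n w hw).1
  have hcard : (0 : ℝ) < Fintype.card ι := by exact_mod_cast Fintype.card_pos
  have hcardC : (Fintype.card ι : ℂ) ≠ 0 := by exact_mod_cast hcard.ne'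
  refine ⟨fun z => (Fintype.card ι : ℂ)⁻¹ * ∑ i, PL Y F (Λ i) N z, ?_, ?_, ?_, ?_⟩
  · unfold PL
    fun_prop
  · intro z x hx hs hz
    refine (avg_le _ (fun _ => ∑' n, aa Y F n * x ^ n) fun i =>
      (hbnd α σ Y F hinv hF0 (Λ i) (hFam i) N z x hx hs).1 hz).trans (le_of_eq ?_)
    rw [Finset.sum_const, Finset.card_univ, nsmul_eq_mul, ← mul_assoc, inv_mul_cancel₀ hcard.ne',
      one_mul]
  · intro z x δ hx hs hδ h1 h2 h3
    set y : ℝ := ‖z‖ * (1 + ‖z‖ ^ Y.s) ^ c₀ with hy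
    have hy0 : 0 ≤ y := by positivity
    set T : ℝ := ∑' n, aa Y F n * x ^ n with hT
    refine (avg_le _ (fun i => T + ∑ m ∈ range (N + 1), ∑ w ∈ (Y.K m).filter
      (fun w => ((Sl Y (Λ i) w).card : ℝ) < c₀ * m), F w * y ^ m) fun i =>
      (hbnd α σ Y F hinv hF0 (Λ i) (hFam i) N z x hx hs).2 c₀ δ hc₀ hδ h1 h2).trans ?_
    rw [Finset.sum_add_distrib, Finset.sum_const, Finset.card_univ, nsmul_eq_mul, mul_add,
      ← mul_assoc, inv_mul_cancel₀ hcard.ne', one_mul]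
    refine add_le_add le_rfl ?_
    rw [inv_mul_le_iff₀ hcard, Finset.sum_comm]
    have hsum : Summable (fun m : ℕ => C₀ * C * (((m : ℝ) + 1) ^ p * θ₂ ^ m)) :=
      (sum_pp p θ₂ h20 h21).mul_left _
    have h4 : ∑ m ∈ range (N + 1), C₀ * C * (((m : ℝ) + 1) ^ p * θ₂ ^ m)
        ≤ ∑' m : ℕ, C₀ * C * (((m : ℝ) + 1) ^ p * θ₂ ^ m) :=
      hsum.sum_le_tsum _ fun m _ => by positivity
    refine le_trans ?_ (mul_le_mul_of_nonneg_left h4 hcard.le)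
    rw [Finset.mul_sum]
    refine Finset.sum_le_sum fun m hm => ?_
    have hmN : m ≤ N := by
      have := Finset.mem_range.1 hm
      omega
    calc ∑ i, ∑ w ∈ (Y.K m).filter (fun w => ((Sl Y (Λ i) w).card : ℝ) < c₀ * m), F w * y ^ m
        ≤ ∑ i, (((Y.K m).filter (fun w => ((Sl Y (Λ i) w).card : ℝ) < c₀ * m)).card : ℝ) *
            (C₀ * ((m : ℝ) + 1) ^ p * ρ ^ m * y ^ m) := by
          refine Finset.sum_le_sum fun i _ => ?_
          have h5 := Finset.sum_le_card_nsmul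
            ((Y.K m).filter (fun w => ((Sl Y (Λ i) w).card : ℝ) < c₀ * m))
            (fun w => F w * y ^ m) (C₀ * ((m : ℝ) + 1) ^ p * ρ ^ m * y ^ m) (fun w hw =>
              mul_le_mul_of_nonneg_right (hF m w (Finset.mem_filter.1 hw).1).2 (by positivity))
          rwa [nsmul_eq_mul] at h5
      _ = (∑ i, (((Y.K m).filter (fun w => ((Sl Y (Λ i) w).card : ℝ) < c₀ * m)).card : ℝ)) *
            (C₀ * ((m : ℝ) + 1) ^ p * ρ ^ m * y ^ m) := by rw [Finset.sum_mul]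
      _ ≤ (C * (θ * μ) ^ m * Fintype.card ι) * (C₀ * ((m : ℝ) + 1) ^ p * ρ ^ m * y ^ m) :=
          mul_le_mul_of_nonneg_right (hfew m hmN) (by positivity)
      _ = Fintype.card ι * (C₀ * C * (((m : ℝ) + 1) ^ p * (θ * μ * (ρ * y)) ^ m)) := by
          rw [mul_pow (θ * μ) (ρ * y) m, mul_pow ρ y m]
          ring
      _ ≤ Fintype.card ι * (C₀ * C * (((m : ℝ) + 1) ^ p * θ₂ ^ m)) := by
          refine mul_le_mul_of_nonneg_left (mul_le_mul_of_nonneg_left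
            (mul_le_mul_of_nonneg_left (pow_le_pow_left₀ (by positivity) h3 m) (by positivity))
            (by positivity)) hcard.le
  · intro z hs
    have h1 : (Fintype.card ι : ℂ)⁻¹ * ∑ i, PL Y F (Λ i) N z -
        ∑ n ∈ range (N + 1), (aa Y F n : ℂ) * z ^ n =
        (Fintype.card ι : ℂ)⁻¹ * ∑ i, (PL Y F (Λ i) N z -
          ∑ n ∈ range (N + 1), (aa Y F n : ℂ) * z ^ n) := by
      rw [Finset.sum_sub_distrib, Finset.sum_const, Finset.card_univ, nsmul_eq_mul, mul_sub,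
        ← mul_assoc _ (Fintype.card ι : ℂ), inv_mul_cancel₀ hcardC, one_mul]
    simp only []
    rw [h1]
    refine (avg_le _ (fun _ => ∑' n, aa Y F (n + (N + 1)) * ‖z‖ ^ (n + (N + 1))) fun i =>
      hcnv α σ Y F hinv hF0 (Λ i) (hFam i) N z hs).trans (le_of_eq ?_)
    rw [Finset.sum_const, Finset.card_univ, nsmul_eq_mul, ← mul_assoc, inv_mul_cancel₀ hcard.ne',
      one_mul]

/-- analytic continuation for invariant functionals of exponential growth, relative to a free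
radius -/
theorem acI (Y : TS α σ) {M : ℝ} {φ : ℕ → ℝ} (hG : Gr Y M φ) :
    ∃ κ : ℝ, 1 < κ ∧ κ ≤ 2 ∧ ∃ c : ℝ, 0 < c ∧ c ≤ 1 / 4 ∧
      ∀ (C₀ : ℝ) (p : ℕ), 0 ≤ C₀ → ∃ C : ℝ, 0 < C ∧
      ∀ μ : ℝ, 1 ≤ μ → M ≤ κ * μ → μ ≤ κ * M → ∀ ρ : ℝ, 0 ≤ ρ → ρ ≤ κ → ∀ F : α → ℝ,
      (∀ n, ∀ w ∈ Y.K n, 0 ≤ F w ∧ F w ≤ C₀ * ((n : ℝ) + 1) ^ p * ρ ^ n) →
      (∀ n, ∀ w ∈ Y.K n, ∀ q ∈ Y.S w, F (Y.ins w q) = F w) →
      (∀ x : ℝ, 0 ≤ x → μ * x < 1 → Summable (fun n => aa Y F n * x ^ n)) →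
      ∃ f : ℂ → ℂ, DifferentiableOn ℂ f (Om c μ Y.s) ∧
        (∀ z : ℂ, μ * ‖z‖ < 1 → HasSum (fun n => (aa Y F n : ℂ) * z ^ n) (f z)) ∧
        ∀ z ∈ Om c μ Y.s, z ≠ 0 → cs Y.s z < 1 →
          Summable (fun n => aa Y F n * xx c μ Y.s z ^ n) ∧
          ‖f z‖ ≤ C + ∑' n, aa Y F n * xx c μ Y.s z ^ n := by
  have hvit : S_VIT := Pool.Agent.N45.AC.vit
  have homg : S_OMG := Pool.Agent.N189.AC.omg
  have hfew : S_FEW := Pool.Agent.N700.AC.few Pool.Agent.N547.EG.Sel.sel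
  have hbnd : S_BND := Pool.Agent.N186.AC.bnd Pool.Agent.N562.AC.expT
  have hcnv : S_CNV := Pool.Agent.N186.AC.cnv Pool.Agent.N562.AC.expT
  have hM := hG.one
  have hM0 : 0 < M := by linarith
  obtain ⟨c₀, θ, C, hc₀, hθ, hθ1, hC, hfewN⟩ := hfew α σ Y M φ hG
  obtain ⟨κ, hκ1, hκ2, hκθ⟩ : ∃ κ : ℝ, 1 < κ ∧ κ ≤ 2 ∧ κ * κ * θ < 1 := by
    obtain ⟨κ₂, hκ2d⟩ : ∃ κ₂ : ℝ, κ₂ = min 2 ((1 + 1 / θ) / 2) := ⟨_, rfl⟩
    have hκ21 : 1 < κ₂ := by
      have h1 : 1 < 1 / θ := by rw [lt_div_iff₀ hθ]; linarith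
      rw [hκ2d]
      exact lt_min (by norm_num) (by linarith)
    have hκ22 : κ₂ ≤ 2 := by rw [hκ2d]; exact min_le_left _ _
    have hκ2θ : κ₂ * θ < 1 := by
      have h1 := mul_le_mul_of_nonneg_right (min_le_right 2 ((1 + 1 / θ) / 2)) hθ.le
      rw [← hκ2d] at h1
      have h2 : (1 + 1 / θ) / 2 * θ = (θ + 1) / 2 := by field_simp; try ring
      linarith
    refine ⟨Real.sqrt κ₂, ?_, ?_, ?_⟩
    · rw [Real.lt_sqrt (by norm_num)]
      linarith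
    · rw [Real.sqrt_le_left (by norm_num)]
      linarith
    · rw [Real.mul_self_sqrt (by linarith)]
      exact hκ2θ
  have hκ0 : 0 < κ := by linarith
  obtain ⟨c₀', c₂, θ₂, hc₀', hcc, hc₂, h20, h21, hθ₂⟩ :=
    consts (κ * κ * θ) c₀ Y.s (by positivity) hκθ hc₀
  obtain ⟨k, hk, c₁, hc₁, hangc⟩ := ang2u (κ * M) c₀' Y.s (by nlinarith) hc₀' Y.hs
  set c : ℝ := min (min c₁ (1 / 4)) c₂ with hcdef
  have hc : 0 < c := lt_min (lt_min hc₁ (by norm_num)) hc₂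
  have hcc1 : c ≤ c₁ := (min_le_left _ _).trans (min_le_left _ _)
  have hc4 : c ≤ 1 / 4 := (min_le_left _ _).trans (min_le_right _ _)
  have hcc2 : c ≤ c₂ := min_le_right _ _
  refine ⟨κ, hκ1, hκ2, c, hc, hc4, fun C₀ p hC₀ => ?_⟩
  have hsum2 : Summable (fun m : ℕ => C₀ * C * (((m : ℝ) + 1) ^ p * θ₂ ^ m)) :=
    (sum_pp p θ₂ h20 h21).mul_left _
  set D : ℝ := ∑' m : ℕ, C₀ * C * (((m : ℝ) + 1) ^ p * θ₂ ^ m) with hD
  have hD0 : 0 ≤ D := tsum_nonneg fun m => by positivity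
  refine ⟨1 + D, by linarith, fun μ hμ hMμ hμM ρ hρ0 hρ F hF hinv hS => ?_⟩
  have hμ0 : 0 < μ := by linarith
  have hangc' := hangc μ hμ hμM
  have hangc : ∀ c : ℝ, 0 < c → c ≤ c₁ → ∀ z ∈ Om c μ Y.s, 0 < xx c μ Y.s z ∧
      (xx c μ Y.s z < ‖z‖ →
      ‖z‖ ≤ xx c μ Y.s z * Real.exp (c₀' * (k * (1 - cs Y.s z))) ∧
      ‖1 + z ^ Y.s‖ ≤ (1 + xx c μ Y.s z ^ Y.s) * Real.exp (-(k * (1 - cs Y.s z)))) :=
    fun c h1 h2 z hz => ⟨(hangc' c h1 h2 z hz).1, fun h => ⟨((hangc' c h1 h2 z hz).2 h).1,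
      ((hangc' c h1 h2 z hz).2 h).2.1⟩⟩
  obtain ⟨hO1, hO2, hO3, hcs, hcsc⟩ := homg c μ Y.s hc hμ Y.hs
  have hF0 : ∀ n, ∀ w ∈ Y.K n, 0 ≤ F w := fun n w hw => (hF n w hw).1
  have haa : ∀ n, 0 ≤ aa Y F n := aa_nonneg hF0
  -- the polynomials
  have hexP : ∀ N : ℕ, ∃ P : ℂ → ℂ, Differentiable ℂ P ∧
      (∀ (z : ℂ) (x : ℝ), 0 ≤ x → Summable (fun n => aa Y F n * x ^ n) → ‖z‖ ≤ x →
        ‖P z‖ ≤ ∑' n, aa Y F n * x ^ n) ∧
      (∀ (z : ℂ) (x δ : ℝ), 0 ≤ x → Summable (fun n => aa Y F n * x ^ n) → 0 ≤ δ →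
        ‖z‖ ≤ x * Real.exp (c₀' * δ) → ‖1 + z ^ Y.s‖ ≤ (1 + x ^ Y.s) * Real.exp (-δ) →
        θ * M * (ρ * (‖z‖ * (1 + ‖z‖ ^ Y.s) ^ c₀')) ≤ θ₂ →
        ‖P z‖ ≤ (∑' n, aa Y F n * x ^ n) + D) ∧
      (∀ z : ℂ, Summable (fun n => aa Y F n * ‖z‖ ^ n) →
        ‖P z - ∑ n ∈ range (N + 1), (aa Y F n : ℂ) * z ^ n‖ ≤
          ∑' n, aa Y F (n + (N + 1)) * ‖z‖ ^ (n + (N + 1))) := by
    intro N
    obtain ⟨ι, i1, i2, Λ, hFam, hL⟩ := hfewN N
    refine ex_PI hbnd hcnv Y M c₀' θ C C₀ p ρ hρ0 hc₀' hθ hM hC hC₀ θ₂ h20 h21 F hF hinv N ι Λ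
      hFam
      fun m hm => ?_
    refine le_trans (Finset.sum_le_sum fun i _ => ?_) (hL m hm)
    have h1 : (Y.K m).filter (fun w => ((Sl Y (Λ i) w).card : ℝ) < c₀' * m) ⊆
        (Y.K m).filter (fun w => ((Sl Y (Λ i) w).card : ℝ) < c₀ * m) := by
      intro w hw
      rw [Finset.mem_filter] at hw ⊢
      refine ⟨hw.1, hw.2.trans_le ?_⟩
      exact mul_le_mul_of_nonneg_right hcc (Nat.cast_nonneg m)
    exact_mod_cast Finset.card_le_card h1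
  choose P hP1 hP2 hP3 hP4 using hexP
  -- the size of the points of the domain
  have hsize : ∀ z ∈ Om c μ Y.s, θ * M * (ρ * (‖z‖ * (1 + ‖z‖ ^ Y.s) ^ c₀')) ≤ θ₂ := by
    intro z hz
    have h1 : μ * ‖z‖ < 1 + c * (1 - cs Y.s z) := hz
    have h2 := abs_le.1 (hcs z)
    have h3 : μ * ‖z‖ ≤ 1 + 2 * c := by nlinarith [h2.1]
    have h4 : ‖z‖ ≤ 2 := by
      have h5 : ‖z‖ ≤ μ * ‖z‖ := by nlinarith [norm_nonneg z]
      linarith
    have h5 : (1 + ‖z‖ ^ Y.s) ^ c₀' ≤ (1 + 2 ^ Y.s : ℝ) ^ c₀' := by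
      refine Real.rpow_le_rpow (by positivity) ?_ hc₀'.le
      have := pow_le_pow_left₀ (norm_nonneg z) h4 Y.s
      linarith
    have h6 : M * ‖z‖ ≤ κ * (1 + 2 * c) := by
      have h7 : M * ‖z‖ ≤ κ * μ * ‖z‖ := mul_le_mul_of_nonneg_right hMμ (norm_nonneg z)
      have h8 : κ * μ * ‖z‖ = κ * (μ * ‖z‖) := by ring
      have h9 : κ * (μ * ‖z‖) ≤ κ * (1 + 2 * c) := mul_le_mul_of_nonneg_left h3 (by linarith)
      linarith
    have h7 : ρ * (M * ‖z‖) ≤ κ * (κ * (1 + 2 * c)) :=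
      mul_le_mul hρ h6 (by positivity) (by linarith)
    calc θ * M * (ρ * (‖z‖ * (1 + ‖z‖ ^ Y.s) ^ c₀'))
        = θ * ((ρ * (M * ‖z‖)) * (1 + ‖z‖ ^ Y.s) ^ c₀') := by ring
      _ ≤ θ * ((κ * (κ * (1 + 2 * c))) * (1 + 2 ^ Y.s) ^ c₀') := by
          refine mul_le_mul_of_nonneg_left (mul_le_mul h7 h5 (by positivity) (by positivity)) hθ.le
      _ = κ * κ * θ * ((1 + 2 * c) * (1 + 2 ^ Y.s) ^ c₀') := by ring
      _ ≤ θ₂ := hθ₂ c hc hcc2
  have hxx : ∀ z : ℂ, μ * xx c μ Y.s z = 1 - c * (1 - cs Y.s z) := by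
    intro z
    unfold xx
    field_simp
  have hxs : ∀ z ∈ Om c μ Y.s, cs Y.s z < 1 → Summable (fun n => aa Y F n * xx c μ Y.s z ^ n) := by
    intro z hz hz1
    refine hS _ (hangc c hc hcc1 z hz).1.le ?_
    rw [hxx]
    nlinarith
  -- the bound
  have hB : ∀ N, ∀ z ∈ Om c μ Y.s, cs Y.s z < 1 →
      ‖P N z‖ ≤ (∑' n, aa Y F n * xx c μ Y.s z ^ n) + D := by
    intro N z hz hz1
    obtain ⟨hx0, hx1⟩ := hangc c hc hcc1 z hz
    have hs := hxs z hz hz1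
    rcases le_or_gt ‖z‖ (xx c μ Y.s z) with h | h
    · have := hP2 N z _ hx0.le hs h
      linarith
    · obtain ⟨h1, h2⟩ := hx1 h
      exact hP3 N z _ (k * (1 - cs Y.s z)) hx0.le hs
        (mul_nonneg hk.le (by linarith)) h1 h2 (hsize z hz)
  -- local boundedness
  have hloc : ∀ z ∈ Om c μ Y.s, ∃ r B : ℝ, 0 < r ∧
      ∀ N, ∀ z' ∈ Metric.ball z r ∩ Om c μ Y.s, ‖P N z'‖ ≤ B := by
    intro z hz
    rcases lt_or_ge (μ * ‖z‖) 1 with h | h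
    · have h1 : ‖z‖ < 1 / μ := by
        rw [lt_div_iff₀ hμ0, mul_comm]
        exact h
      obtain ⟨x, hx1, hx2⟩ := exists_between h1
      have hx0 : 0 ≤ x := (norm_nonneg z).trans hx1.le
      have hx3 : μ * x < 1 := by
        rw [lt_div_iff₀ hμ0, mul_comm] at hx2
        exact hx2
      refine ⟨x - ‖z‖, ∑' n, aa Y F n * x ^ n, by linarith, fun N z' hz' => ?_⟩
      refine hP2 N z' x hx0 (hS x hx0 hx3) ?_
      have h2 : dist z' z < x - ‖z‖ := hz'.1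
      rw [dist_eq_norm] at h2
      have h3 : ‖z'‖ ≤ ‖z' - z‖ + ‖z‖ := by
        have := norm_add_le (z' - z) z
        rwa [sub_add_cancel] at this
      linarith
    · have hz0 : z ≠ 0 := by
        rintro rfl
        simp at h
        linarith
      have hz1 : cs Y.s z < 1 := by
        have h1 : μ * ‖z‖ < 1 + c * (1 - cs Y.s z) := hz
        by_contra h2
        push Not at h2
        nlinarith
      set q : ℝ := (1 + cs Y.s z) / 2 with hq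
      have hq1 : cs Y.s z < q := by rw [hq]; linarith
      have hq2 : q < 1 := by rw [hq]; linarith
      have h1 : ∀ᶠ z' in 𝓝 z, cs Y.s z' < q := (hcsc z hz0).eventually_lt_const hq1
      obtain ⟨r, hr, hr1⟩ := Metric.eventually_nhds_iff.1 h1
      have hcz := abs_le.1 (hcs z)
      have hX0 : 0 ≤ (1 - c * (1 - q)) / μ := by
        refine div_nonneg ?_ hμ0.le
        have : c * (1 - q) ≤ 1 / 4 * 1 :=
          mul_le_mul hc4 (by rw [hq]; linarith [hcz.1]) (by linarith) (by norm_num)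
        linarith
      have hX1 : μ * ((1 - c * (1 - q)) / μ) < 1 := by
        rw [mul_div_cancel₀ _ hμ0.ne']
        nlinarith
      refine ⟨r, (∑' n, aa Y F n * ((1 - c * (1 - q)) / μ) ^ n) + D, hr, fun N z' hz' => ?_⟩
      have hz'q : cs Y.s z' < q := hr1 hz'.1
      have h2 := hB N z' hz'.2 (hz'q.trans hq2)
      refine h2.trans (add_le_add ?_ le_rfl)
      refine (hxs z' hz'.2 (hz'q.trans hq2)).tsum_le_tsum (fun n => ?_) (hS _ hX0 hX1)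
      refine mul_le_mul_of_nonneg_left ?_ (haa n)
      refine pow_le_pow_left₀ (hangc c hc hcc1 z' hz'.2).1.le ?_ n
      unfold xx
      refine div_le_div_of_nonneg_right ?_ hμ0.le
      nlinarith
  -- convergence in the disc
  have hDsum : ∀ z : ℂ, μ * ‖z‖ < 1 →
      Summable (fun n => (aa Y F n : ℂ) * z ^ n) := by
    intro z hz
    refine Summable.of_norm ?_
    have h1 := hS ‖z‖ (norm_nonneg z) hz
    refine h1.congr fun n => ?_
    rw [norm_mul, norm_pow, Complex.norm_real, Real.norm_eq_abs, abs_of_nonneg (haa n)]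
  have hDlim : ∀ z : ℂ, μ * ‖z‖ < 1 →
      Tendsto (fun N => P N z) atTop (𝓝 (∑' n, (aa Y F n : ℂ) * z ^ n)) := by
    intro z hz
    have h1 := hS ‖z‖ (norm_nonneg z) hz
    have h2 : Tendsto (fun N : ℕ => ∑' n, aa Y F (n + (N + 1)) * ‖z‖ ^ (n + (N + 1)))
        atTop (𝓝 0) :=
      (tendsto_sum_nat_add (fun n => aa Y F n * ‖z‖ ^ n)).comp (tendsto_add_atTop_nat 1)
    have h3 : Tendsto (fun N : ℕ => ∑ n ∈ range (N + 1), (aa Y F n : ℂ) * z ^ n) atTop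
        (𝓝 (∑' n, (aa Y F n : ℂ) * z ^ n)) :=
      (hDsum z hz).hasSum.tendsto_sum_nat.comp (tendsto_add_atTop_nat 1)
    have h4 : Tendsto (fun N : ℕ => P N z - ∑ n ∈ range (N + 1), (aa Y F n : ℂ) * z ^ n) atTop
        (𝓝 0) :=
      squeeze_zero_norm (fun N => hP4 N z h1) h2
    have h5 := h4.add h3
    simp only [sub_add_cancel, zero_add] at h5
    exact h5
  have hDopen : IsOpen {z : ℂ | μ * ‖z‖ < 1} := isOpen_lt (by fun_prop) continuous_const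
  obtain ⟨f, hf1, hf2⟩ := hvit (Om c μ Y.s) {z : ℂ | μ * ‖z‖ < 1} hO1 hO2 hDopen
    ⟨0, by simp⟩ (fun z hz => hO3 z hz) P (fun N => (hP1 N).differentiableOn) hloc
    (fun z hz => ⟨_, hDlim z hz⟩)
  refine ⟨f, hf1, fun z hz => ?_, fun z hz hz0 hz1 => ⟨hxs z hz hz1, ?_⟩⟩
  · have h1 := tendsto_nhds_unique (hf2 z (hO3 z hz)) (hDlim z hz)
    rw [h1]
    exact (hDsum z hz).hasSum
  · have h1 := (hf2 z hz).norm
    have h2 := le_of_tendsto h1 (Eventually.of_forall fun N => hB N z hz hz1)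
    linarith

end

end Run7.h106.AH
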