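import Mathlib

/-!
# Partition functions of walks in a force: submultiplicativity
-/

set_option autoImplicit false
set_option linter.unusedVariables false

namespace Run7.h106.AH

open Filter Topology Finset

noncomputable section

/-- self-avoiding walks on `ℤ^d` from the origin -/
def IsW (d n : ℕ) (ω : Fin (n + 1) → Fin d → ℤ) : Prop :=
  ω 0 = 0 ∧ (∀ i : Fin n, ∑ j, |ω i.succ j - ω i.castSucc j| = 1) ∧ Function.Injective ω

/-- the weight of a point -/
def wt {d : ℕ} (h : Fin d → ℝ) (x : Fin d → ℤ) : ℝ := Real.exp (∑ j, h j * (x j : ℝ))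

/-- the partition function -/
def ZZ (d : ℕ) (h : Fin d → ℝ) (n : ℕ) : ℝ :=
  ∑ᶠ ω ∈ {ω | IsW d n ω}, wt h (ω (Fin.last n))

variable {d : ℕ}

theorem IsW.step {n : ℕ} {ω : Fin (n + 1) → Fin d → ℤ} (h : IsW d n ω) (i : ℕ) (hi : i < n) :
    ∑ j, |ω ⟨i + 1, by omega⟩ j - ω ⟨i, by omega⟩ j| = 1 := h.2.1 ⟨i, hi⟩

theorem IsW.box {n : ℕ} {ω : Fin (n + 1) → Fin d → ℤ} (h : IsW d n ω) :
    ∀ (i : ℕ) (hi : i < n + 1) (j : Fin d), |ω ⟨i, hi⟩ j| ≤ i := by
  intro i
  induction i with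
  | zero =>
    intro hi j
    have : ω ⟨0, hi⟩ = 0 := h.1
    rw [this]
    simp
  | succ i ih =>
    intro hi j
    have h1 := h.step i (by omega)
    have h2 := ih (by omega) j
    have h3 : |ω ⟨i + 1, hi⟩ j - ω ⟨i, by omega⟩ j| ≤ 1 := by
      rw [← h1]
      exact single_le_sum (f := fun j => |ω ⟨i + 1, by omega⟩ j - ω ⟨i, by omega⟩ j|)
        (fun j _ => abs_nonneg _) (mem_univ j)
    have h4 := abs_add_le (ω ⟨i + 1, hi⟩ j - ω ⟨i, by omega⟩ j) (ω ⟨i, by omega⟩ j)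
    rw [sub_add_cancel] at h4
    push_cast
    linarith

theorem fin_W (d n : ℕ) : {ω | IsW d n ω}.Finite := by
  refine (Set.finite_Icc (fun _ _ => -(n : ℤ) : Fin (n + 1) → Fin d → ℤ)
    (fun _ _ => (n : ℤ))).subset fun ω hω => ?_
  have h : ∀ i j, |ω i j| ≤ n := fun i j => (IsW.box hω i.1 i.2 j).trans (by
    have := i.2
    exact_mod_cast (by omega : i.1 ≤ n))
  exact ⟨fun i j => (abs_le.1 (h i j)).1, fun i j => (abs_le.1 (h i j)).2⟩

theorem IsW.force {h : Fin d → ℝ} {b : ℝ} (hh : ∀ j, |h j| ≤ b) {n : ℕ}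
    {ω : Fin (n + 1) → Fin d → ℤ} (hω : IsW d n ω) :
    ∀ (i : ℕ) (hi : i < n + 1), |∑ j, h j * (ω ⟨i, hi⟩ j : ℝ)| ≤ b * i := by
  intro i
  induction i with
  | zero =>
    intro hi
    have : ω ⟨0, hi⟩ = 0 := hω.1
    rw [this]
    simp
  | succ i ih =>
    intro hi
    have h1 := hω.step i (by omega)
    have h2 := ih (by omega)
    have h3 : |∑ j, h j * ((ω ⟨i + 1, hi⟩ j : ℝ) - (ω ⟨i, by omega⟩ j : ℝ))| ≤ b := by
      calc |∑ j, h j * ((ω ⟨i + 1, hi⟩ j : ℝ) - (ω ⟨i, by omega⟩ j : ℝ))|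
          ≤ ∑ j, |h j * ((ω ⟨i + 1, hi⟩ j : ℝ) - (ω ⟨i, by omega⟩ j : ℝ))| :=
            abs_sum_le_sum_abs _ _
        _ ≤ ∑ j, b * |(ω ⟨i + 1, hi⟩ j : ℝ) - (ω ⟨i, by omega⟩ j : ℝ)| := by
            refine sum_le_sum fun j _ => ?_
            rw [abs_mul]
            exact mul_le_mul_of_nonneg_right (hh j) (abs_nonneg _)
        _ = b * ((∑ j, |ω ⟨i + 1, by omega⟩ j - ω ⟨i, by omega⟩ j| : ℤ) : ℝ) := by
            push_cast
            rw [mul_sum]
        _ = b := by rw [h1]; simp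
    have h4 : ∑ j, h j * (ω ⟨i + 1, hi⟩ j : ℝ) =
        ∑ j, h j * ((ω ⟨i + 1, hi⟩ j : ℝ) - (ω ⟨i, by omega⟩ j : ℝ)) +
        ∑ j, h j * (ω ⟨i, by omega⟩ j : ℝ) := by
      rw [← sum_add_distrib]
      refine sum_congr rfl fun j _ => ?_
      ring
    rw [h4]
    refine (abs_add_le _ _).trans ?_
    push_cast
    linarith

theorem ZZ_eq (h : Fin d → ℝ) (n : ℕ) :
    ZZ d h n = ∑ ω ∈ (fin_W d n).toFinset, wt h (ω (Fin.last n)) :=
  finsum_mem_eq_finite_toFinset_sum _ _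

/-- the two parts of a walk -/
def cut (d m n : ℕ) (ω : Fin (m + n + 1) → Fin d → ℤ) :
    (Fin (m + 1) → Fin d → ℤ) × (Fin (n + 1) → Fin d → ℤ) :=
  (fun i => ω ⟨i.1, by have := i.2; omega⟩,
    fun i => ω ⟨m + i.1, by have := i.2; omega⟩ - ω ⟨m, by omega⟩)

theorem cut_mem {m n : ℕ} {ω : Fin (m + n + 1) → Fin d → ℤ} (h : IsW d (m + n) ω) :
    IsW d m (cut d m n ω).1 ∧ IsW d n (cut d m n ω).2 := by
  refine ⟨⟨h.1, fun i => ?_, fun i j hij => ?_⟩, ⟨?_, fun i => ?_, fun i j hij => ?_⟩⟩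
  · exact h.step i.1 (by have := i.2; omega)
  · have := h.2.2 hij
    rw [Fin.mk.injEq] at this
    exact Fin.ext this
  · show ω ⟨m + 0, _⟩ - ω ⟨m, _⟩ = 0
    exact sub_self _
  · have h1 := h.step (m + i.1) (by have := i.2; omega)
    refine (sum_congr rfl fun j _ => ?_).trans h1
    show |(ω ⟨m + (i.1 + 1), _⟩ - ω ⟨m, _⟩) j - (ω ⟨m + i.1, _⟩ - ω ⟨m, _⟩) j| = _
    rw [Pi.sub_apply, Pi.sub_apply, sub_sub_sub_cancel_right]
    rfl
  · have hij' : ω ⟨m + i.1, by have := i.2; omega⟩ - ω ⟨m, by omega⟩ =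
        ω ⟨m + j.1, by have := j.2; omega⟩ - ω ⟨m, by omega⟩ := hij
    have := h.2.2 (sub_left_inj.1 hij')
    rw [Fin.mk.injEq] at this
    exact Fin.ext (by omega)

theorem cut_inj (d m n : ℕ) : Function.Injective (cut d m n) := by
  intro ω ω' h
  unfold cut at h
  rw [Prod.mk.injEq] at h
  obtain ⟨h1, h2⟩ := h
  have hm := congrFun h1 ⟨m, by omega⟩
  simp only at hm
  funext k
  rcases Nat.lt_or_ge k.1 m with hk | hk
  · exact congrFun h1 ⟨k.1, by omega⟩
  · have h3 := congrFun h2 ⟨k.1 - m, by have := k.2; omega⟩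
    simp only at h3
    rw [hm, sub_left_inj] at h3
    have e : (⟨m + (k.1 - m), by have := k.2; omega⟩ : Fin (m + n + 1)) = k :=
      Fin.ext (by simp only; omega)
    rwa [e] at h3

theorem wt_cut (h : Fin d → ℝ) {m n : ℕ} (ω : Fin (m + n + 1) → Fin d → ℤ) :
    wt h (ω (Fin.last (m + n))) =
      wt h ((cut d m n ω).1 (Fin.last m)) * wt h ((cut d m n ω).2 (Fin.last n)) := by
  unfold wt
  rw [← Real.exp_add, ← sum_add_distrib]
  congr 1
  refine sum_congr rfl fun j _ => ?_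
  have e1 : (cut d m n ω).1 (Fin.last m) j = ω ⟨m, by omega⟩ j := rfl
  have e2 : (cut d m n ω).2 (Fin.last n) j = ω (Fin.last (m + n)) j - ω ⟨m, by omega⟩ j := rfl
  rw [e1, e2]
  push_cast
  ring

theorem ZZ_sub (h : Fin d → ℝ) (m n : ℕ) : ZZ d h (m + n) ≤ ZZ d h m * ZZ d h n := by
  classical
  rw [ZZ_eq, ZZ_eq, ZZ_eq, sum_mul_sum, ← sum_product']
  calc ∑ ω ∈ (fin_W d (m + n)).toFinset, wt h (ω (Fin.last (m + n)))
      = ∑ x ∈ ((fin_W d (m + n)).toFinset).image (cut d m n),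
          wt h (x.1 (Fin.last m)) * wt h (x.2 (Fin.last n)) := by
        rw [sum_image fun ω _ ω' _ e => cut_inj d m n e]
        exact sum_congr rfl fun ω _ => wt_cut h ω
    _ ≤ _ := by
        refine sum_le_sum_of_subset_of_nonneg (fun x hx => ?_) fun x _ _ => ?_
        · rw [mem_image] at hx
          obtain ⟨ω, hω, rfl⟩ := hx
          rw [Set.Finite.mem_toFinset] at hω
          rw [mem_product, Set.Finite.mem_toFinset, Set.Finite.mem_toFinset]
          exact cut_mem hω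
        · unfold wt
          positivity

/-- comparison with the number of walks -/
theorem ZZ_cmp {h : Fin d → ℝ} {b : ℝ} (hh : ∀ j, |h j| ≤ b) (n : ℕ) :
    Real.exp (-b) ^ n * ({ω | IsW d n ω}.ncard : ℝ) ≤ ZZ d h n ∧
      ZZ d h n ≤ Real.exp b ^ n * ({ω | IsW d n ω}.ncard : ℝ) := by
  rw [ZZ_eq, Set.ncard_eq_toFinset_card _ (fin_W d n)]
  have h1 : ∀ ω ∈ (fin_W d n).toFinset, Real.exp (-b) ^ n ≤ wt h (ω (Fin.last n)) ∧
      wt h (ω (Fin.last n)) ≤ Real.exp b ^ n := by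
    intro ω hω
    rw [Set.Finite.mem_toFinset] at hω
    have h2 := abs_le.1 (IsW.force hh hω n (by omega))
    have e : (⟨n, by omega⟩ : Fin (n + 1)) = Fin.last n := rfl
    rw [e] at h2
    unfold wt
    rw [← Real.exp_nat_mul, ← Real.exp_nat_mul]
    exact ⟨Real.exp_le_exp.2 (by linarith), Real.exp_le_exp.2 (by linarith)⟩
  constructor
  · have := card_nsmul_le_sum (fin_W d n).toFinset (fun ω => wt h (ω (Fin.last n))) _
      fun ω hω => (h1 ω hω).1
    rw [nsmul_eq_mul] at this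
    linarith
  · have := sum_le_card_nsmul (fin_W d n).toFinset (fun ω => wt h (ω (Fin.last n))) _
      fun ω hω => (h1 ω hω).2
    rw [nsmul_eq_mul] at this
    linarith

/-- the growth rate in a force -/
theorem fek {h : Fin d → ℝ} {b : ℝ} (hh : ∀ j, |h j| ≤ b) {μ : ℝ}
    (hpos : ∀ n, 0 < {ω | IsW d n ω}.ncard)
    (hlim : Tendsto (fun n : ℕ => ({ω | IsW d n ω}.ncard : ℝ) ^ (1 / (n : ℝ))) atTop (𝓝 μ)) :
    ∃ ν : ℝ, 0 < ν ∧ Tendsto (fun n : ℕ => ZZ d h n ^ (1 / (n : ℝ))) atTop (𝓝 ν) ∧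
      μ * Real.exp (-b) ≤ ν ∧ ν ≤ μ * Real.exp b ∧
      ∀ x : ℝ, 0 ≤ x → ν * x < 1 → Summable (fun n => ZZ d h n * x ^ n) := by
  have hp : ∀ n, 0 < ZZ d h n := fun n => by
    have h1 : (0 : ℝ) < ({ω | IsW d n ω}.ncard : ℝ) := by exact_mod_cast hpos n
    have h2 := (ZZ_cmp hh n).1
    have h3 : 0 < Real.exp (-b) ^ n * ({ω | IsW d n ω}.ncard : ℝ) := by positivity
    linarith
  have hsub : Subadditive (fun n => Real.log (ZZ d h n)) := by
    intro m n
    rw [← Real.log_mul (hp m).ne' (hp n).ne']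
    exact Real.log_le_log (hp _) (ZZ_sub h m n)
  have hbdd : BddBelow (Set.range fun n : ℕ => Real.log (ZZ d h n) / n) := by
    refine ⟨-|b|, ?_⟩
    rintro _ ⟨n, rfl⟩
    rcases Nat.eq_zero_or_pos n with rfl | hn
    · simp
    · have hn' : (0 : ℝ) < n := by exact_mod_cast hn
      show -|b| ≤ Real.log (ZZ d h n) / n
      rw [le_div_iff₀ hn']
      have h1 : (1 : ℝ) ≤ ({ω | IsW d n ω}.ncard : ℝ) := by exact_mod_cast hpos n
      have h2 := (ZZ_cmp hh n).1
      have h3 : Real.exp (-b * n) ≤ ZZ d h n := by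
        have e : Real.exp (-b * n) = Real.exp (-b) ^ n := by
          rw [← Real.exp_nat_mul]
          congr 1
          ring
        rw [e]
        have h4 : 0 < Real.exp (-b) ^ n := by positivity
        nlinarith
      have h4 : -b * n ≤ Real.log (ZZ d h n) := by
        rw [Real.le_log_iff_exp_le (hp n)]
        exact h3
      have h5 := le_abs_self b
      nlinarith
  have hT := hsub.tendsto_lim hbdd
  have hν : Tendsto (fun n : ℕ => ZZ d h n ^ (1 / (n : ℝ))) atTop (𝓝 (Real.exp hsub.lim)) := by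
    refine ((Real.continuous_exp.tendsto _).comp hT).congr fun n => ?_
    show Real.exp (Real.log (ZZ d h n) / n) = _
    rw [Real.rpow_def_of_pos (hp n)]
    congr 1
    ring
  have hroot : ∀ (r : ℝ) (n : ℕ), 0 ≤ r → 1 ≤ n → (r ^ n : ℝ) ^ (1 / (n : ℝ)) = r := by
    intro r n hr hn
    rw [one_div]
    exact Real.pow_rpow_inv_natCast hr (by omega)
  refine ⟨_, Real.exp_pos _, hν, ?_, ?_, ?_⟩
  · refine le_of_tendsto_of_tendsto (hlim.mul_const (Real.exp (-b))) hν ?_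
    filter_upwards [eventually_ge_atTop 1] with n hn
    have h1 := (ZZ_cmp hh n).1
    calc ({ω | IsW d n ω}.ncard : ℝ) ^ (1 / (n : ℝ)) * Real.exp (-b)
        = (Real.exp (-b) ^ n * ({ω | IsW d n ω}.ncard : ℝ)) ^ (1 / (n : ℝ)) := by
          rw [Real.mul_rpow (by positivity) (by positivity), hroot _ n (Real.exp_pos _).le hn]
          ring
      _ ≤ _ := Real.rpow_le_rpow (by positivity) h1 (by positivity)
  · refine le_of_tendsto_of_tendsto hν (hlim.mul_const (Real.exp b)) ?_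
    filter_upwards [eventually_ge_atTop 1] with n hn
    have h1 := (ZZ_cmp hh n).2
    calc ZZ d h n ^ (1 / (n : ℝ))
        ≤ (Real.exp b ^ n * ({ω | IsW d n ω}.ncard : ℝ)) ^ (1 / (n : ℝ)) :=
          Real.rpow_le_rpow (hp n).le h1 (by positivity)
      _ = _ := by
          rw [Real.mul_rpow (by positivity) (by positivity), hroot _ n (Real.exp_pos _).le hn]
          ring
  · intro x hx0 hx
    obtain ⟨ν, hνd⟩ : ∃ ν, ν = Real.exp hsub.lim := ⟨_, rfl⟩
    rw [← hνd] at hν hx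
    have hν0 : 0 < ν := by rw [hνd]; exact Real.exp_pos _
    obtain ⟨r, hr1, hr2⟩ : ∃ r, ν < r ∧ r * x < 1 := by
      rcases hx0.eq_or_lt with rfl | hx0
      · exact ⟨ν + 1, by linarith, by simp⟩
      · have h1 : ν < 1 / x := by rw [lt_div_iff₀ hx0]; exact hx
        obtain ⟨r, h2, h3⟩ := exists_between h1
        exact ⟨r, h2, by rwa [lt_div_iff₀ hx0] at h3⟩
    have hr0 : 0 < r := hν0.trans hr1
    have h1 : ∀ᶠ n : ℕ in atTop, ZZ d h n ^ (1 / (n : ℝ)) < r := hν.eventually_lt_const hr1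
    refine (summable_geometric_of_lt_one (by positivity) hr2).of_norm_bounded_eventually_nat ?_
    filter_upwards [h1, eventually_ge_atTop 1] with n hn1 hn2
    rw [Real.norm_of_nonneg (mul_nonneg (hp n).le (by positivity)), mul_pow]
    refine mul_le_mul_of_nonneg_right ?_ (by positivity)
    have h2 := pow_le_pow_left₀ (by have := hp n; positivity) hn1.le n
    have h3 : (ZZ d h n ^ (1 / (n : ℝ))) ^ n = ZZ d h n := by
      rw [one_div]
      exact Real.rpow_inv_natCast_pow (hp n).le (by omega)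
    rwa [h3] at h2

end

end Run7.h106.AH
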