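import Pool.Agent.Run7.h106.AH.Asm
import Pool.Agent.Run7.h106.AH.Fek
import Pool.Agent.Run7.h106.AC.PolyFin
import Pool.Agent.N929.AC.Three
import Pool.Agent.N929.AC.Grid2

/-!
# Walks in a weak force: analytic continuation relative to the own radius of convergence
-/

set_option autoImplicit false
set_option linter.unusedVariables false

namespace Run7.h106.AH

open Finset Filter Topology Pool.Agent.N929.EG Pool.Agent.N929.AC
open scoped Classical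

noncomputable section

/-- sums over the end points -/
def es (d : ℕ) (g : (Fin d → ℤ) → ℝ) (n : ℕ) : ℝ := ∑ᶠ ω ∈ {ω | IsW d n ω}, g (ω (Fin.last n))

/-- continuation for end point functionals of exponential growth, relative to a free radius -/
def AF (d : ℕ) (μ : ℝ) : Prop := ∃ κ : ℝ, 1 < κ ∧ κ ≤ 2 ∧ ∃ c : ℝ, 0 < c ∧ c ≤ 1 / 4 ∧
    ∃ C : ℝ, 0 < C ∧ ∀ ν : ℝ, 1 ≤ ν → μ ≤ κ * ν → ν ≤ κ * μ → ∀ g : (Fin d → ℤ) → ℝ,
      (∀ x, 0 ≤ g x) → (∀ (n : ℕ) (x : Fin d → ℤ), (∀ j, |x j| ≤ n) → g x ≤ κ ^ n) →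
      (∀ x : ℝ, 0 ≤ x → ν * x < 1 → Summable (fun n => es d g n * x ^ n)) →
      ∃ f : ℂ → ℂ, DifferentiableOn ℂ f (Om c ν 2) ∧
        (∀ z : ℂ, ν * ‖z‖ < 1 → HasSum (fun n => (es d g n : ℂ) * z ^ n) (f z)) ∧
        ∀ z ∈ Om c ν 2, z ≠ 0 → cs 2 z < 1 →
          Summable (fun n => es d g n * xx c ν 2 z ^ n) ∧
          ‖f z‖ ≤ C + ∑' n, es d g n * xx c ν 2 z ^ n

/-! ### dimension 3 -/

section three

open KN TH966.KO TH966.KO.BR

theorem af3 : AF 3 TH966.KO.μ := by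
  obtain ⟨Y, H⟩ := sys3 Pool.Agent.N546.EG.cnt3
  obtain ⟨K, K₁, hK, hK₁, G⟩ := H.gr
  obtain ⟨κ, hκ1, hκ2, c, hc, hc4, h⟩ := acI Y G
  rw [H.s] at h
  obtain ⟨C, hC, h'⟩ := h 1 0 zero_le_one
  refine ⟨κ, hκ1, hκ2, c, hc, hc4, C, hC, fun ν hν hν1 hν2 g hg hg2 hS => ?_⟩
  have e : ∀ n, es 3 g n = aa Y (fun w => g (E (e3 w))) n := by
    intro n
    unfold aa
    rw [sum_Y H]
    simp only [e3_path]
    exact sum_eq3 n g
  obtain ⟨f, h1, h2, h3⟩ := h' ν hν hν1 hν2 κ (by linarith) le_rfl (fun w => g (E (e3 w)))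
    (fun n w hw => by
      obtain ⟨u, hu, rfl⟩ := (H.K n w).1 hw
      rw [e3_path]
      refine ⟨hg _, ?_⟩
      rw [pow_zero, mul_one, one_mul]
      refine hg2 n _ fun j => ?_
      have h4 := (bij n).mapsTo (Finset.mem_coe.2 hu)
      have h5 : IsW 3 n (wk n u) := h4
      have h6 := h5.box n (by omega) j
      rw [← wk_last (mem_SS.1 hu).1]
      exact h6)
    (fun n w hw q hq => by simp only [H.e3 n w hw q hq])
    (fun x hx0 hx => by
      simp only [← e]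
      exact hS x hx0 hx)
  simp only [← e] at h2 h3
  exact ⟨f, h1, h2, h3⟩

theorem lim3 : Tendsto (fun n : ℕ => ({ω | IsW 3 n ω}.ncard : ℝ) ^ (1 / (n : ℝ))) atTop
    (𝓝 TH966.KO.μ) := by
  have hC : ∀ n, {ω | IsW 3 n ω}.ncard = Pool.Agent.H46R2.K3.c n := fun n => TH966.KO.ncard_eq n
  have := Pool.Agent.H46R2.K3.P.tendsto_c
  simp only [hC]
  exact this

theorem pos3 (n : ℕ) : 0 < {ω | IsW 3 n ω}.ncard := by
  have hC : ∀ n, {ω | IsW 3 n ω}.ncard = Pool.Agent.H46R2.K3.c n := fun n => TH966.KO.ncard_eq n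
  rw [hC]
  have := TH966.KO.c_pos n
  exact_mod_cast this

theorem ge3 : 2 ≤ TH966.KO.μ := by linarith [TH966.KO.mu_ge]

end three

/-! ### dimension 2 -/

section two

open TH966.AK Pool.Agent.R965.HP

/-- adjacency -/
def A2 (p q : ℤ × ℤ) : Prop := |p.1 - q.1| + |p.2 - q.2| = 1

/-- coordinates -/
def T2 (n : ℕ) (ω : Fin (n + 1) → Fin 2 → ℤ) : Fin (n + 1) → ℤ × ℤ := fun i => (ω i 0, ω i 1)

theorem T2_inj (n : ℕ) : Function.Injective (T2 n) := by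
  intro ω ω' h
  funext i j
  have h1 := congrFun h i
  unfold T2 at h1
  rw [Prod.mk.injEq] at h1
  fin_cases j
  · exact h1.1
  · exact h1.2

theorem T2_bij (n : ℕ) : Set.BijOn (T2 n) {ω | IsW 2 n ω} (wks A2 n) := by
  refine ⟨fun ω hω => ?_, (T2_inj n).injOn, fun f hf => ?_⟩
  · obtain ⟨h1, h2, h3⟩ := hω
    refine ⟨?_, fun i j hij => h3 ?_, fun i => ?_⟩
    · show (ω 0 0, ω 0 1) = 0
      rw [h1]
      rfl
    · unfold T2 at hij
      rw [Prod.mk.injEq] at hij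
      funext k
      fin_cases k
      · exact hij.1
      · exact hij.2
    · have := h2 i
      rw [Fin.sum_univ_two] at this
      show |ω i.castSucc 0 - ω i.succ 0| + |ω i.castSucc 1 - ω i.succ 1| = 1
      rw [abs_sub_comm, abs_sub_comm (ω i.castSucc 1)]
      exact this
  · obtain ⟨h1, h2, h3⟩ := hf
    refine ⟨fun i => ![(f i).1, (f i).2], ⟨?_, fun i => ?_, fun i j hij => h2 ?_⟩, ?_⟩
    · show ![(f 0).1, (f 0).2] = 0
      rw [h1]
      funext k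
      fin_cases k <;> rfl
    · have h4 : |(f i.castSucc).1 - (f i.succ).1| + |(f i.castSucc).2 - (f i.succ).2| = 1 := h3 i
      rw [Fin.sum_univ_two]
      show |(f i.succ).1 - (f i.castSucc).1| + |(f i.succ).2 - (f i.castSucc).2| = 1
      rw [abs_sub_comm, abs_sub_comm (f i.succ).2]
      exact h4
    · have a1 := congrFun hij 0
      have a2 := congrFun hij 1
      exact Prod.ext a1 a2
    · funext i
      rfl

theorem es2 (g : (Fin 2 → ℤ) → ℝ) (n : ℕ) :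
    es 2 g n = ∑ᶠ ω ∈ wks A2 n, g ![(ω (Fin.last n)).1, (ω (Fin.last n)).2] := by
  unfold es
  refine finsum_mem_eq_of_bijOn (T2 n) (T2_bij n) fun ω _ => ?_
  congr 1
  funext j
  fin_cases j <;> rfl

theorem dom_acI {A : ℤ × ℤ → ℤ × ℤ → Prop} {Z : TH966.AK.Rule A} {μ K : ℝ} {a : ℕ}
    (G : Pool.Agent.R965.HP.Gr Z.sys μ K a) (ha : 1 ≤ a) :
    ∃ κ : ℝ, 1 < κ ∧ κ ≤ 2 ∧ ∃ c : ℝ, 0 < c ∧ c ≤ 1 / 4 ∧ ∃ C : ℝ, 0 < C ∧
      ∀ ν : ℝ, 1 ≤ ν → μ ≤ κ * ν → ν ≤ κ * μ → ∀ g : ℤ × ℤ → ℝ,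
      (∀ n, ∀ w ∈ TH966.AK.Kw A n, 0 ≤ g (TH966.AK.lst w) ∧ g (TH966.AK.lst w) ≤ κ ^ n) →
      (∀ x : ℝ, 0 ≤ x → ν * x < 1 → Summable (fun n => TH966.AK.WF A g n * x ^ n)) →
      ∃ f : ℂ → ℂ, DifferentiableOn ℂ f (Om c ν Z.s) ∧
        (∀ z : ℂ, ν * ‖z‖ < 1 → HasSum (fun n => (TH966.AK.WF A g n : ℂ) * z ^ n) (f z)) ∧
        ∀ z ∈ Om c ν Z.s, z ≠ 0 → cs Z.s z < 1 →
          Summable (fun n => TH966.AK.WF A g n * xx c ν Z.s z ^ n) ∧
          ‖f z‖ ≤ C + ∑' n, TH966.AK.WF A g n * xx c ν Z.s z ^ n := by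
  obtain ⟨Y, y1, y2, y3, y4, y5⟩ := sys2 Z G.hs
  obtain ⟨K₁, hK₁, hG, hl⟩ := grD G ha y2 y3 y4
  obtain ⟨κ, hκ1, hκ2, c, hc, hc4, h⟩ := acI Y hG
  obtain ⟨C, hC, h'⟩ := h 1 0 zero_le_one
  refine ⟨κ, hκ1, hκ2, c, hc, hc4, C, hC, fun ν hν hν1 hν2 g hg hS => ?_⟩
  have e : ∀ n, aa Y (fun w => g (TH966.AK.lst w)) n = TH966.AK.WF A g n := by
    intro n
    unfold aa
    rw [y2]
    rfl
  obtain ⟨f, h1, h2, h3⟩ := h' ν hν hν1 hν2 κ (by linarith) le_rfl (fun w => g (TH966.AK.lst w))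
    (fun n w hw => by
      rw [pow_zero, mul_one, one_mul]
      exact hg n w (by rw [← y2]; exact hw)) (lst_invD y2 y3 y5 g)
    (fun x hx0 hx => by
      simp only [e]
      exact hS x hx0 hx)
  rw [y1] at h1 h3
  simp only [e] at h2 h3
  exact ⟨f, h1, h2, h3⟩

theorem af2 : AF 2 H981.mu := by
  obtain ⟨K, G⟩ := full_gr H982P.sqL Pool.Agent.R965.HP.Sq.rule (show 1 ≤ 2 by norm_num)
    H982P.coord_sq sq_poor
  rw [mu_sq] at G
  have e2 : AD A2 (fun _ => True) = A2 := by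
    funext p q
    unfold AD
    simp
  have h := dom_acI G one_le_two
  have hz : (ruleD Pool.Agent.R965.HP.Sq.rule (fun _ => True)).s = 2 := rfl
  rw [hz] at h
  obtain ⟨κ, hκ1, hκ2, c, hc, hc4, C, hC, h'⟩ := h
  refine ⟨κ, hκ1, hκ2, c, hc, hc4, C, hC, fun ν hν hν1 hν2 g hg hg2 hS => ?_⟩
  have e : ∀ n, es 2 g n = WF (AD A2 (fun _ => True)) (fun p => g ![p.1, p.2]) n := by
    intro n
    rw [es2, e2]
    exact sum_wks Pool.Agent.R965.HP.Sq.rule (fun p => g ![p.1, p.2]) n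
  obtain ⟨f, h1, h2, h3⟩ := h' ν hν hν1 hν2 (fun p => g ![p.1, p.2])
    (fun n w hw => by
      refine ⟨hg _, hg2 n _ fun j => ?_⟩
      obtain ⟨h4, h5⟩ := lst_le (ruleD Pool.Agent.R965.HP.Sq.rule (fun _ => True)) hw
      fin_cases j
      · exact h4
      · exact h5)
    (fun x hx0 hx => by
      have := hS x hx0 hx
      simp only [e] at this
      exact this)
  refine ⟨f, h1, fun z hz => ?_, fun z hz hz0 hz1 => ?_⟩
  · simp only [e]
    exact h2 z hz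
  · simp only [e]
    exact h3 z hz hz0 hz1

/-- the map to pairs, for the counts -/
theorem card2 (n : ℕ) : {ω | IsW 2 n ω}.ncard =
    {ω : Fin (n + 1) → ℤ × ℤ | Pool.Agent.H976R2.IsSAW n ω}.ncard := by
  have h : {ω : Fin (n + 1) → ℤ × ℤ | Pool.Agent.H976R2.IsSAW n ω} = wks A2 n := by
    ext ω
    constructor
    · rintro ⟨h1, h2, h3⟩
      refine ⟨h1, h3, fun i => ?_⟩
      have := h2 i
      show |(ω i.castSucc).1 - (ω i.succ).1| + |(ω i.castSucc).2 - (ω i.succ).2| = 1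
      rw [abs_sub_comm, abs_sub_comm (ω i.castSucc).2]
      exact this
    · rintro ⟨h1, h3, h2⟩
      refine ⟨h1, fun i => ?_, h3⟩
      have : |(ω i.castSucc).1 - (ω i.succ).1| + |(ω i.castSucc).2 - (ω i.succ).2| = 1 := h2 i
      rw [abs_sub_comm, abs_sub_comm (ω i.succ).2]
      exact this
  rw [h, ← (T2_bij n).image_eq, Set.ncard_image_of_injective _ (T2_inj n)]

theorem lim2 : Tendsto (fun n : ℕ => ({ω | IsW 2 n ω}.ncard : ℝ) ^ (1 / (n : ℝ))) atTop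
    (𝓝 H981.mu) := by
  simp only [card2]
  exact Run7.h106.AC.c_lim

theorem pos2 (n : ℕ) : 0 < {ω | IsW 2 n ω}.ncard := by
  rw [card2, Pool.Agent.H976R2.ncard_saw]
  obtain ⟨μ, K, hμ, hK, hlow, -⟩ := Pool.Agent.N929.EZ.s_gen
  have h1 := hlow n
  have h2 : 0 < μ ^ n := pow_pos (by linarith) n
  have h3 : (0 : ℝ) < ((Pool.Agent.H976R2.SW n).card : ℝ) := by linarith
  exact_mod_cast h3

theorem ge2 : 2 ≤ H981.mu := by linarith [Pool.Agent.H739K.mu_ge]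

end two

/-! ### the force -/

theorem force {d : ℕ} (hd : (d : ℝ) ≤ 3) {μ : ℝ} (hμ : 2 ≤ μ) (hA : AF d μ)
    (hpos : ∀ n, 0 < {ω | IsW d n ω}.ncard)
    (hlim : Tendsto (fun n : ℕ => ({ω | IsW d n ω}.ncard : ℝ) ^ (1 / (n : ℝ))) atTop (𝓝 μ)) :
    ∃ h₀ : ℝ, 0 < h₀ ∧ ∃ κ : ℝ, 1 < κ ∧ ∃ c : ℝ, 0 < c ∧ c ≤ 1 / 4 ∧ ∃ C : ℝ,
      (∀ ν : ℝ, μ / κ ≤ ν → ν ≤ κ * μ → 1 ≤ ν ∧ ∀ g : (Fin d → ℤ) → ℝ,
        (∀ x, 0 ≤ g x ∧ g x ≤ Real.exp (h₀ * ∑ j, |(x j : ℝ)|)) →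
        (∀ x : ℝ, 0 ≤ x → ν * x < 1 → Summable (fun n => es d g n * x ^ n)) →
        ∃ f : ℂ → ℂ, DifferentiableOn ℂ f (Om c ν 2) ∧
          (∀ z : ℂ, ν * ‖z‖ < 1 → HasSum (fun n => (es d g n : ℂ) * z ^ n) (f z)) ∧
          ∀ z ∈ Om c ν 2, z ≠ 0 → cs 2 z < 1 →
            ‖f z‖ ≤ C + ‖f (xx c ν 2 z : ℂ)‖) ∧
      ∀ h : Fin d → ℝ, (∀ j, |h j| ≤ h₀) → ∃ ν : ℝ, μ / κ ≤ ν ∧ ν ≤ κ * μ ∧
        Tendsto (fun n : ℕ => es d (wt h) n ^ (1 / (n : ℝ))) atTop (𝓝 ν) ∧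
        (∀ x, 0 ≤ wt h x ∧ wt h x ≤ Real.exp (h₀ * ∑ j, |(x j : ℝ)|)) ∧
        ∀ x : ℝ, 0 ≤ x → ν * x < 1 → Summable (fun n => es d (wt h) n * x ^ n) := by
  obtain ⟨κ, hκ1, hκ2, c, hc, hc4, C, hC, h⟩ := hA
  have hlog : 0 < Real.log κ := Real.log_pos hκ1
  have hκ0 : 0 < κ := by linarith
  refine ⟨Real.log κ / 3, by positivity, κ, hκ1, c, hc, hc4, C, fun ν hν1 hν2 => ?_,
    fun h' hh => ?_⟩
  · have hν3 : μ ≤ κ * ν := by
      rw [div_le_iff₀ hκ0] at hν1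
      linarith
    have hν : 1 ≤ ν := by nlinarith
    refine ⟨hν, fun g hg hS => ?_⟩
    obtain ⟨f, f1, f2, f3⟩ := h ν hν hν3 hν2 g (fun x => (hg x).1)
      (fun n x hx => by
        refine (hg x).2.trans ?_
        have h1 : ∑ j, |(x j : ℝ)| ≤ d * n := by
          have := Finset.sum_le_card_nsmul (univ : Finset (Fin d)) (fun j => |(x j : ℝ)|) (n : ℝ)
            fun j _ => by
              have := hx j
              exact_mod_cast this
          rwa [card_univ, Fintype.card_fin, nsmul_eq_mul] at this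
        have hn0 : (0 : ℝ) ≤ n := Nat.cast_nonneg n
        have h2 : Real.log κ / 3 * ∑ j, |(x j : ℝ)| ≤ n * Real.log κ := by
          have h3 : ∑ j, |(x j : ℝ)| ≤ 3 * n := h1.trans (mul_le_mul_of_nonneg_right hd hn0)
          calc Real.log κ / 3 * ∑ j, |(x j : ℝ)| ≤ Real.log κ / 3 * (3 * n) :=
                mul_le_mul_of_nonneg_left h3 (by positivity)
            _ = _ := by ring
        calc Real.exp (Real.log κ / 3 * ∑ j, |(x j : ℝ)|) ≤ Real.exp (n * Real.log κ) :=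
              Real.exp_le_exp.2 h2
          _ = κ ^ n := by rw [Real.exp_nat_mul, Real.exp_log hκ0])
      hS
    refine ⟨f, f1, f2, fun z hz hz0 hz1 => ?_⟩
    obtain ⟨-, h2⟩ := f3 z hz hz0 hz1
    have habs := abs_le.1 (Run7.h106.AC.cs_abs 2 z)
    have hν0 : 0 < ν := by linarith
    have hx : ν * xx c ν 2 z = 1 - c * (1 - cs 2 z) := by
      unfold xx
      field_simp
    have hx0 : 0 < xx c ν 2 z := by
      unfold xx
      refine div_pos ?_ hν0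
      nlinarith
    have h4 := f2 (xx c ν 2 z : ℂ) (by
      rw [Complex.norm_real, Real.norm_of_nonneg hx0.le, hx]
      nlinarith)
    have h5 : f (xx c ν 2 z : ℂ) = ((∑' n, es d g n * xx c ν 2 z ^ n : ℝ) : ℂ) := by
      rw [← h4.tsum_eq, Complex.ofReal_tsum]
      refine tsum_congr fun n => ?_
      push_cast
      rfl
    have h6 : ‖f (xx c ν 2 z : ℂ)‖ = ∑' n, es d g n * xx c ν 2 z ^ n := by
      rw [h5, Complex.norm_real, Real.norm_of_nonneg]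
      refine tsum_nonneg fun n => mul_nonneg ?_ (pow_nonneg hx0.le n)
      exact finsum_nonneg fun ω => finsum_nonneg fun _ => (hg _).1
    rw [h6]
    exact h2
  · obtain ⟨ν, hν0, hν1, hν2, hν3, hν4⟩ := fek hh hpos hlim
    have e1 : Real.exp (Real.log κ / 3) ≤ κ := by
      calc Real.exp (Real.log κ / 3) ≤ Real.exp (Real.log κ) := Real.exp_le_exp.2 (by linarith)
        _ = κ := Real.exp_log hκ0
    refine ⟨ν, ?_, ?_, hν1, fun x => ⟨?_, ?_⟩, hν4⟩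
    · refine le_trans ?_ hν2
      rw [div_eq_mul_inv, Real.exp_neg]
      exact mul_le_mul_of_nonneg_left (inv_anti₀ (Real.exp_pos _) e1) (by linarith)
    · refine hν3.trans ?_
      rw [mul_comm κ]
      exact mul_le_mul_of_nonneg_left e1 (by linarith)
    · unfold wt
      positivity
    · unfold wt
      refine Real.exp_le_exp.2 ?_
      rw [mul_sum]
      refine sum_le_sum fun j _ => ?_
      refine (le_abs_self _).trans ?_
      rw [abs_mul]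
      exact mul_le_mul_of_nonneg_right (hh j) (abs_nonneg _)

end

end Run7.h106.AH
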